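import Pool.Agent.ATW.Stmts

/-!
# Squad ATW, row GTP: the two cases
-/

open scoped BigOperators

set_option autoImplicit false

noncomputable section

namespace Pool.Agent.PP.TW.H76

open Pool.Agent.Helper51_AWC Pool.Agent.Helper79_WRA Pool.Agent.PP Pool.Agent.PP.KF
open Pool.Agent.PP.K9 Pool.Agent.PP.K9.H97 Pool.Agent.PP.H75 Pool.Agent.PP.T3 Pool.Agent.PP.T2
open Pool.Agent.PP.T5 Pool.Agent.PP.TB
open Pool.Agent.PP.T8 (rs pw fv rd Ip Rv vv Dat Fr)

/-- a commutative group with two generators and exponent dividing `n` has at most `n * n`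
elements -/
theorem card_two_gen (V : Type) [CommGroup V] [Finite V] (n : ℕ) (hn : 0 < n)
    (hexp : ∀ v : V, v ^ n = 1) (x y : V) (h : (⊤ : Subgroup V) = Subgroup.closure {x, y}) :
    Nat.card V ≤ n * n := by
  have hpow : ∀ (v : V) (m : ℤ), ∃ i : Fin n, v ^ (i : ℕ) = v ^ m := by
    intro v m
    have hn' : (0 : ℤ) < n := by exact_mod_cast hn
    have h1 : 0 ≤ m % n := Int.emod_nonneg m hn'.ne'
    have h2 : m % n < n := Int.emod_lt_of_pos m hn'
    refine ⟨⟨(m % n).toNat, by omega⟩, ?_⟩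
    show v ^ (m % n).toNat = v ^ m
    have h3 : v ^ m = v ^ (m % n) := by
      conv_lhs => rw [← Int.mul_ediv_add_emod m n]
      rw [zpow_add, zpow_mul, zpow_natCast, hexp, one_zpow, one_mul]
    rw [h3, ← zpow_natCast, Int.toNat_of_nonneg h1]
  have hs : Function.Surjective (fun p : Fin n × Fin n => x ^ (p.1 : ℕ) * y ^ (p.2 : ℕ)) := by
    intro v
    have hv : v ∈ Subgroup.closure {x, y} := by
      rw [← h]
      exact Subgroup.mem_top v
    obtain ⟨m, k, hmk⟩ := Subgroup.mem_closure_pair.1 hv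
    obtain ⟨i, hi⟩ := hpow x m
    obtain ⟨j, hj⟩ := hpow y k
    exact ⟨(i, j), by rw [← hmk, ← hi, ← hj]⟩
  have h1 := Nat.card_le_card_of_surjective _ hs
  rwa [Nat.card_prod, Nat.card_fin] at h1

theorem gtp (hP : PypStmt) : GtpStmt := by
  intro F _ hF G _ _ e V γ hL hix a ha hexp hgen
  have hab : ∀ a b : V, a * b = b * a := fun a b => Subtype.ext (hL.ab a a.2 b b.2)
  let _ : CommGroup V := { (inferInstance : Group V) with mul_comm := hab }
  have hTN : Tg V γ ≤ Subgroup.normalizer (V : Set G) := inf_le_left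
  let f : Tg V γ →* MulAut V := (V.normalizerMonoidHom).comp (Subgroup.inclusion hTN)
  have hfv : ∀ (t : Tg V γ) (v : V), ((f t v : V) : G) = t * v * (t : G)⁻¹ := fun t v => rfl
  have hker : ∀ t : Tg V γ, f t = 1 ↔ (t : G) ∈ Subgroup.centralizer (V : Set G) := by
    intro t
    constructor
    · intro h
      rw [Subgroup.mem_centralizer_iff]
      intro v hv
      have h1 : f t ⟨v, hv⟩ = ⟨v, hv⟩ := by rw [h]; rfl
      have h2 := congrArg (fun z : V => (z : G)) h1
      have h3 : (t : G) * v * (t : G)⁻¹ = v := (hfv t ⟨v, hv⟩).symm.trans h2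
      calc v * (t : G) = ((t : G) * v * (t : G)⁻¹) * t := by rw [h3]
        _ = t * v := by group
    · intro h
      ext v
      rw [hfv]
      have h1 := (Subgroup.mem_centralizer_iff.1 h) v v.2
      change (t : G) * v * (t : G)⁻¹ = v
      rw [← h1]
      group
  have hkk : f.ker = (Subgroup.centralizer (V : Set G)).subgroupOf (Tg V γ) := by
    ext t
    rw [MonoidHom.mem_ker, hker, Subgroup.mem_subgroupOf]
  have hcard : Nat.card f.range = ix V γ := by
    rw [← Subgroup.index_ker, hkk]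
    rfl
  obtain ⟨x, z, hxz⟩ := hgen
  have hx : x ∈ V := by
    rw [hxz]; exact Subgroup.subset_closure (Set.mem_insert _ _)
  have hz : z ∈ V := by
    rw [hxz]; exact Subgroup.subset_closure (Set.mem_insert_of_mem _ rfl)
  have hclo : (⊤ : Subgroup V) = Subgroup.closure {⟨x, hx⟩, ⟨z, hz⟩} := by
    apply Subgroup.map_injective V.subtype_injective
    rw [← MonoidHom.range_eq_map, Subgroup.range_subtype, MonoidHom.map_closure, Set.image_pair]
    exact hxz
  rcases hP V a ha hexp ⟨⟨x, hx⟩, ⟨z, hz⟩, hclo⟩ f.range (by rw [hcard]; exact hix) with h | h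
  · left
    rw [← hcard, h]
    exact Nat.card_eq_one_iff_unique.2 ⟨inferInstance, inferInstance⟩
  · obtain ⟨h3, hfree, y, w, x', hy, hw, hw2, hyw⟩ := h
    right
    refine ⟨by rw [← hcard, h3], ?_, ?_, y, w, y.2, ?_, ⟨x', x'.2, ?_⟩, ?_, ?_⟩
    · intro t ht v hv hv1 htv
      rcases hfree (f ⟨t, ht⟩) ⟨⟨t, ht⟩, rfl⟩ ⟨v, hv⟩ (by
        apply Subtype.ext
        rw [hfv]
        show t * v * t⁻¹ = v
        rw [htv]
        group) with h4 | h4
      · exact absurd (congrArg (fun u : V => (u : G)) h4) hv1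
      · exact (hker ⟨t, ht⟩).1 h4
    · have h4 := card_two_gen V (2 ^ a) (by positivity) (fun v => by
        rw [← hexp]
        exact Monoid.pow_exponent_eq_one v) ⟨x, hx⟩ ⟨z, hz⟩ hclo
      calc Nat.card V ≤ 2 ^ a * 2 ^ a := h4
        _ = 4 ^ a := by rw [← mul_pow]; norm_num
    · rw [Subgroup.orderOf_coe]
      exact hy
    · rw [hw]
      rfl
    · have := congrArg (fun u : V => (u : G)) hw2
      exact this
    · intro k h4
      exact hyw k (Subtype.ext h4)

end Pool.Agent.PP.TW.H76
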